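import Pool.Agent.Q283.LP.Stm

/-!
Project LP (helper283): the second moment of the share.
-/

set_option autoImplicit false

open scoped Classical

namespace Q98.LP

open Finset Q283.LP
open Q283.GS (al)

theorem al_le_one (r : ℕ) : al r ≤ 1 :=
  le_hasSum Q283.GS.hasSum_al r (fun i _ => (Q283.GS.al_pos i).le)

section pairs

/-- the indicator -/
noncomputable def ind1 (p : Prop) : ℝ := if p then 1 else 0

theorem ind1_true {p : Prop} (h : p) : ind1 p = 1 := by unfold ind1; rw [if_pos h]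

theorem ind1_false {p : Prop} (h : ¬ p) : ind1 p = 0 := by unfold ind1; rw [if_neg h]

theorem sum_ind1 {β : Type} (T : Finset β) (E : β → Prop) [DecidablePred E] :
    ∑ τ ∈ T, ind1 (E τ) = ((T.filter E).card : ℝ) := by
  rw [Finset.card_filter, Nat.cast_sum]
  refine sum_congr rfl fun ω _ => ?_
  by_cases h : E ω
  · rw [ind1_true h, if_pos h, Nat.cast_one]
  · rw [ind1_false h, if_neg h, Nat.cast_zero]

variable {Ω : Type} [Fintype Ω] [Nonempty Ω]

theorem cov_le_one (E F : Ω → Prop) {P : ℝ} (h0 : 0 ≤ P) (h1 : P ≤ 1) :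
    (∑ ω, (ind1 (E ω) - P) * (ind1 (F ω) - P)) / (Fintype.card Ω : ℝ) ≤ 1 := by
  have hn : (0 : ℝ) < Fintype.card Ω := by exact_mod_cast Fintype.card_pos
  rw [div_le_iff₀ hn, one_mul]
  calc ∑ ω, (ind1 (E ω) - P) * (ind1 (F ω) - P) ≤ ∑ _ω : Ω, (1 : ℝ) := by
        refine sum_le_sum fun ω _ => ?_
        unfold ind1
        split_ifs <;> nlinarith
    _ = _ := by simp

theorem cov_le (E F : Ω → Prop) {P d : ℝ} (h0 : 0 ≤ P) (h1 : P ≤ 1)
    (h2 : |(∑ ω, ind1 (E ω ∧ F ω)) / (Fintype.card Ω : ℝ) - P * P| ≤ d)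
    (h3 : |(∑ ω, ind1 (E ω)) / (Fintype.card Ω : ℝ) - P| ≤ d)
    (h4 : |(∑ ω, ind1 (F ω)) / (Fintype.card Ω : ℝ) - P| ≤ d) :
    (∑ ω, (ind1 (E ω) - P) * (ind1 (F ω) - P)) / (Fintype.card Ω : ℝ) ≤ 3 * d := by
  have hn : (0 : ℝ) < Fintype.card Ω := by exact_mod_cast Fintype.card_pos
  have e1 : ∑ ω, (ind1 (E ω) - P) * (ind1 (F ω) - P) =
      (∑ ω, ind1 (E ω ∧ F ω)) - P * (∑ ω, ind1 (E ω)) -
        P * (∑ ω, ind1 (F ω)) + P * P * (Fintype.card Ω : ℝ) := by
    rw [mul_sum, mul_sum, ← sum_sub_distrib, ← sum_sub_distrib]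
    have : P * P * (Fintype.card Ω : ℝ) = ∑ _ω : Ω, P * P := by
      rw [sum_const, card_univ, nsmul_eq_mul, mul_comm]
    rw [this, ← sum_add_distrib]
    refine sum_congr rfl fun ω _ => ?_
    have : ind1 (E ω ∧ F ω) = ind1 (E ω) * ind1 (F ω) := by
      unfold ind1
      by_cases hE : E ω <;> by_cases hF : F ω <;> simp [hE, hF]
    rw [this]
    ring
  rw [e1, add_div, sub_div, sub_div, mul_div_assoc P, mul_div_assoc P, mul_div_assoc (P * P),
    div_self hn.ne']
  rw [abs_le] at h2 h3 h4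
  have h5 := mul_le_mul_of_nonneg_left h3.1 h0
  have h6 := mul_le_mul_of_nonneg_left h4.1 h0
  have hd : 0 ≤ d := by linarith [h3.1, h3.2]
  have h7 : P * d ≤ d := by nlinarith
  linarith [h2.2]

end pairs

section dbl
variable {U I N M : Type} [Fintype U] [Fintype I] [Fintype N] [Fintype M]

/-- the doubled system -/
def e2 (e : M → N → ZMod 2) : M ⊕ M → N ⊕ N → ZMod 2 :=
  Sum.elim (fun j => Sum.elim (e j) 0) (fun j => Sum.elim 0 (e j))

/-- the pair of tuples -/
def comb (t t' : I → N → ZMod 2) : I → N ⊕ N → ZMod 2 := fun p => Sum.elim (t p) (t' p)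

omit [Fintype N] [Fintype M] in
theorem e2_inj {e : M → N → ZMod 2} (he : Function.Injective e) (h0 : ∀ j, e j ≠ 0) :
    Function.Injective (e2 e) := by
  rintro (j | j) (j' | j') h
  · have : e j = e j' := by
      funext i
      have := congrFun h (.inl i)
      simpa [e2] using this
    rw [he this]
  · exfalso
    apply h0 j
    funext i
    have := congrFun h (.inl i)
    simpa [e2] using this
  · exfalso
    apply h0 j
    funext i
    have := congrFun h (.inr i)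
    simpa [e2] using this
  · have : e j = e j' := by
      funext i
      have := congrFun h (.inr i)
      simpa [e2] using this
    rw [he this]

omit [Fintype N] [Fintype M] in
theorem e2_ne {e : M → N → ZMod 2} (h0 : ∀ j, e j ≠ 0) : ∀ j, e2 e j ≠ 0 := by
  rintro (j | j) h
  · apply h0 j
    funext i
    have := congrFun h (.inl i)
    simpa [e2] using this
  · apply h0 j
    funext i
    have := congrFun h (.inr i)
    simpa [e2] using this

omit [Fintype U] [Fintype I] [Fintype M] in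
theorem FF_inl (e : M → N → ZMod 2) (b b' : M → U → Prop) (t t' : I → N → ZMod 2) (j : M) :
    FF (e2 e) (Sum.elim b b') (comb t t') (.inl j) = FF e b t j := by
  funext v
  rcases v with u | p
  · rfl
  · simp [FF, e2, comb]

omit [Fintype U] [Fintype I] [Fintype M] in
theorem FF_inr (e : M → N → ZMod 2) (b b' : M → U → Prop) (t t' : I → N → ZMod 2) (j : M) :
    FF (e2 e) (Sum.elim b b') (comb t t') (.inr j) = FF e b' t' j := by
  funext v
  rcases v with u | p
  · rfl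
  · simp [FF, e2, comb]

omit [Fintype N] [Fintype I] in
theorem comb_inj {t t' s s' : I → N → ZMod 2} (h : comb t t' = comb s s') : t = s ∧ t' = s' := by
  constructor
  · funext p i
    have := congrFun (congrFun h p) (.inl i)
    simpa [comb] using this
  · funext p i
    have := congrFun (congrFun h p) (.inr i)
    simpa [comb] using this

theorem card_comb : Nat.card (I → N ⊕ N → ZMod 2) =
    Fintype.card (I → N → ZMod 2) * Fintype.card (I → N → ZMod 2) := by
  rw [← Fintype.card_prod, Nat.card_eq_fintype_card]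
  refine Fintype.card_congr ⟨fun s => (fun p i => s p (.inl i), fun p i => s p (.inr i)),
    fun y => comb y.1 y.2, fun s => ?_, fun y => ?_⟩
  · funext p i
    rcases i with i | i <;> rfl
  · rfl

omit [Fintype M] in
theorem Rgg.mono {g : Gr U I} {A R A' R' : ℕ} (h : Rgg g A R) (hA : A' ≤ A) (hR : R' ≤ R) :
    Rgg g A' R' := by
  have h1 : A' * Fintype.card U + R' ≤ A * Fintype.card U + R :=
    Nat.add_le_add (Nat.mul_le_mul_right _ hA) hR
  exact ⟨fun w hw hw2 => h1.trans (h.nd w hw hw2), h1.trans h.act, h1.trans h.pas⟩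

end dbl

theorem t_SEC : Q283.LP.S_SEC := by
  intro hLT hTYP N M _ _ e he h0 D₀ δ hδ
  set d1 : ℝ := δ / 8 with hd1
  have hd1p : 0 < d1 := by positivity
  set d2 : ℝ := δ / (2 * ((D₀ : ℝ) + 1) ^ 2) with hd2
  have hd2p : 0 < d2 := by positivity
  obtain ⟨C1, R1, hL1⟩ := hLT (N ⊕ N) (M ⊕ M) (e2 e) (e2_inj he h0) (e2_ne h0) d1 hd1p
  obtain ⟨C2, R2, hL2⟩ := hLT N M e he h0 d1 hd1p
  obtain ⟨A1, Q1, hT1⟩ := hTYP (N ⊕ N) (M ⊕ M) (e2 e) (e2_ne h0) C1 R1 d2 hd2p
  obtain ⟨A2, Q2, hT2⟩ := hTYP N M e h0 C2 R2 d2 hd2p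
  refine ⟨max A1 A2, max Q1 Q2, ?_⟩
  intro U I _ _ g m T hR hT hD r
  have hR1 : Rgg g A1 Q1 := Rgg.mono hR (le_max_left _ _) (le_max_left _ _)
  have hR2 : Rgg g A2 Q2 := Rgg.mono hR (le_max_right _ _) (le_max_right _ _)
  have hB1' := hT1 U I g hR1
  have hB2 := hT2 U I g hR2
  rw [Fintype.card_eq_nat_card, card_comb, Nat.cast_mul] at hB1'
  set X : ℝ := (Fintype.card (I → N → ZMod 2) : ℝ) with hX
  have hXp : 0 ≤ X := Nat.cast_nonneg _
  have hB1 : ((univ.filter fun t : I → N ⊕ N → ZMod 2 => ¬ Ty g (e2 e) C1 R1 t).card : ℝ) ≤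
      d2 * (X * X) := by
    convert hB1' using 3
    refine Finset.ext fun t => ?_
    simp only [mem_filter, mem_univ, true_and]
  set P : ℝ := ∏ j, al (r j) with hP
  have hP0 : 0 ≤ P := prod_nonneg fun j _ => (Q283.GS.al_pos _).le
  have hP1 : P ≤ 1 := prod_le_one (fun j _ => (Q283.GS.al_pos _).le) fun j _ => al_le_one _
  -- the events
  set E : ((U → N → ZMod 2) × (I → N → ZMod 2)) → (I → I → ZMod 2) → Prop :=
    fun τ α => ∀ j, g.co α (FF e (bb e m τ.1) τ.2 j) = r j with hE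
  set c : ((U → N → ZMod 2) × (I → N → ZMod 2)) → ((U → N → ZMod 2) × (I → N → ZMod 2)) → ℝ :=
    fun τ τ' => (∑ α, (ind1 (E τ α) - P) * (ind1 (E τ' α) - P)) /
      (Fintype.card (I → I → ZMod 2) : ℝ) with hc
  have hTp : (0 : ℝ) < T.card := by exact_mod_cast hT.card_pos
  have hn : (0 : ℝ) < Fintype.card (I → I → ZMod 2) := by exact_mod_cast Fintype.card_pos
  -- the expansion
  have hshr : ∀ α, shr g e m T r α - P = (∑ τ ∈ T, (ind1 (E τ α) - P)) / T.card := by
    intro α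
    rw [sum_sub_distrib, sum_const, nsmul_eq_mul, sub_div, mul_div_cancel_left₀ _ hTp.ne']
    congr 1
    unfold shr
    congr 1
    rw [sum_ind1 T (fun τ => E τ α)]
  have hexp : (∑ α : I → I → ZMod 2, (shr g e m T r α - P) ^ 2) /
      (Fintype.card (I → I → ZMod 2) : ℝ) = (∑ τ ∈ T, ∑ τ' ∈ T, c τ τ') / (T.card : ℝ) ^ 2 := by
    have h1 : ∀ α, (shr g e m T r α - P) ^ 2 =
        (∑ τ ∈ T, ∑ τ' ∈ T, (ind1 (E τ α) - P) * (ind1 (E τ' α) - P)) / (T.card : ℝ) ^ 2 := by
      intro α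
      rw [hshr α, div_pow, sq (∑ τ ∈ T, (ind1 (E τ α) - P)), sum_mul_sum]
    simp_rw [h1]
    rw [← sum_div, div_div, mul_comm ((T.card : ℝ) ^ 2), ← div_div]
    congr 1
    rw [sum_comm, sum_div]
    refine sum_congr rfl fun τ _ => ?_
    rw [sum_comm, sum_div]
  rw [hexp, div_le_iff₀ (by positivity)]
  -- the bad pairs
  set b1 : (I → N → ZMod 2) → (I → N → ZMod 2) → ℝ :=
    fun t t' => if Ty g (e2 e) C1 R1 (comb t t') then 0 else 1 with hb1
  set b2 : (I → N → ZMod 2) → ℝ := fun t => if Ty g e C2 R2 t then 0 else 1 with hb2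
  have hb1n : ∀ t t', 0 ≤ b1 t t' := fun t t' => by rw [hb1]; simp only; split_ifs <;> norm_num
  have hb2n : ∀ t, 0 ≤ b2 t := fun t => by rw [hb2]; simp only; split_ifs <;> norm_num
  have hpair : ∀ τ τ', c τ τ' ≤ 3 * d1 + b1 τ.2 τ'.2 + b2 τ.2 + b2 τ'.2 := by
    intro τ τ'
    have hle1 : c τ τ' ≤ 1 := cov_le_one (E τ) (E τ') hP0 hP1
    by_cases k1 : Ty g (e2 e) C1 R1 (comb τ.2 τ'.2)
    · by_cases k2 : Ty g e C2 R2 τ.2
      · by_cases k3 : Ty g e C2 R2 τ'.2
        · have a1 := hL1 U I g (Sum.elim (bb e m τ.1) (bb e m τ'.1)) (comb τ.2 τ'.2) k1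
            (Sum.elim r r)
          have a2 := hL2 U I g (bb e m τ.1) τ.2 k2 r
          have a3 := hL2 U I g (bb e m τ'.1) τ'.2 k3 r
          have e3 : (univ.filter fun α : I → I → ZMod 2 => ∀ j, g.co α (FF (e2 e)
              (Sum.elim (bb e m τ.1) (bb e m τ'.1)) (comb τ.2 τ'.2) j) = Sum.elim r r j) =
              univ.filter fun α => E τ α ∧ E τ' α := by
            refine filter_congr fun α _ => ?_
            rw [Sum.forall]
            simp only [FF_inl, FF_inr, Sum.elim_inl, Sum.elim_inr, hE]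
          have e4 : ∏ j, al (Sum.elim r r j) = P * P := by
            rw [Fintype.prod_sum_type]
            simp only [Sum.elim_inl, Sum.elim_inr]
            rfl
          rw [e3, e4, ← sum_ind1] at a1
          rw [← sum_ind1] at a2 a3
          have := cov_le (E τ) (E τ') hP0 hP1 a1 a2 a3
          have q1 := hb1n τ.2 τ'.2
          have q2 := hb2n τ.2
          have q3 := hb2n τ'.2
          change c τ τ' ≤ 3 * d1 at this
          linarith
        · have q0 : b2 τ'.2 = 1 := by rw [hb2]; simp only; rw [if_neg k3]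
          have q1 := hb1n τ.2 τ'.2
          have q2 := hb2n τ.2
          linarith
      · have q0 : b2 τ.2 = 1 := by rw [hb2]; simp only; rw [if_neg k2]
        have q1 := hb1n τ.2 τ'.2
        have q2 := hb2n τ'.2
        linarith
    · have q0 : b1 τ.2 τ'.2 = 1 := by rw [hb1]; simp only; rw [if_neg k1]
      have q1 := hb2n τ.2
      have q2 := hb2n τ'.2
      linarith
  -- the projection
  set T1 : Finset (U → N → ZMod 2) := T.image Prod.fst with hT1d
  have hT1c : (T1.card : ℝ) * X ≤ D₀ * T.card := by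
    have k1 : T1.card * Fintype.card (I → N → ZMod 2) ≤ D₀ * T.card := by
      rw [Finset.card_eq_sum_card_image Prod.fst T, mul_sum, ← smul_eq_mul, ← sum_const]
      refine sum_le_sum fun τ1 hτ1 => ?_
      rw [mem_image] at hτ1
      obtain ⟨τ, hτ, rfl⟩ := hτ1
      refine (hD τ.1 ⟨τ.2, hτ⟩).trans (Nat.mul_le_mul_left _ ?_)
      refine Finset.card_le_card_of_injOn (fun t => (τ.1, t)) (fun t ht => ?_) ?_
      · rw [mem_coe, mem_filter] at ht ⊢
        exact ⟨ht.2, rfl⟩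
      · intro t _ t' _ h
        exact (Prod.mk.inj h).2
    rw [hX]
    exact_mod_cast k1
  have hs2 : ∑ τ ∈ T, b2 τ.2 ≤ d2 * D₀ * T.card := by
    have k1 : ∑ τ ∈ T, b2 τ.2 = ((T.filter fun τ => ¬ Ty g e C2 R2 τ.2).card : ℝ) := by
      rw [hb2, ← sum_ind1]
      refine sum_congr rfl fun τ _ => ?_
      by_cases h : Ty g e C2 R2 τ.2
      · rw [ind1_false (fun h' => h' h)]
        simp [h]
      · rw [ind1_true h]
        simp [h]
    have k2 : (T.filter fun τ => ¬ Ty g e C2 R2 τ.2).card ≤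
        (T1 ×ˢ (univ.filter fun t : I → N → ZMod 2 => ¬ Ty g e C2 R2 t)).card := by
      refine card_le_card fun τ hτ => ?_
      rw [mem_filter] at hτ
      rw [mem_product, mem_filter]
      exact ⟨mem_image_of_mem _ hτ.1, mem_univ _, hτ.2⟩
    rw [card_product] at k2
    have k3 : ((T.filter fun τ => ¬ Ty g e C2 R2 τ.2).card : ℝ) ≤
        T1.card * ((univ.filter fun t : I → N → ZMod 2 => ¬ Ty g e C2 R2 t).card : ℝ) := by
      exact_mod_cast k2
    rw [k1]
    refine k3.trans ?_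
    calc (T1.card : ℝ) * ((univ.filter fun t : I → N → ZMod 2 => ¬ Ty g e C2 R2 t).card : ℝ)
        ≤ T1.card * (d2 * X) := mul_le_mul_of_nonneg_left hB2 (Nat.cast_nonneg _)
      _ = d2 * (T1.card * X) := by ring
      _ ≤ d2 * (D₀ * T.card) := mul_le_mul_of_nonneg_left hT1c hd2p.le
      _ = _ := by ring
  have hs1 : ∑ τ ∈ T, ∑ τ' ∈ T, b1 τ.2 τ'.2 ≤ d2 * D₀ ^ 2 * (T.card : ℝ) ^ 2 := by
    have k1 : ∑ τ ∈ T, ∑ τ' ∈ T, b1 τ.2 τ'.2 =
        (((T ×ˢ T).filter fun y => ¬ Ty g (e2 e) C1 R1 (comb y.1.2 y.2.2)).card : ℝ) := by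
      rw [← Finset.sum_product', hb1, ← sum_ind1]
      refine sum_congr rfl fun τ _ => ?_
      by_cases h : Ty g (e2 e) C1 R1 (comb τ.1.2 τ.2.2)
      · rw [ind1_false (fun h' => h' h)]
        simp [h]
      · rw [ind1_true h]
        simp [h]
    have k2 : ((T ×ˢ T).filter fun y => ¬ Ty g (e2 e) C1 R1 (comb y.1.2 y.2.2)).card ≤
        ((T1 ×ˢ T1) ×ˢ (univ.filter fun t : I → N ⊕ N → ZMod 2 => ¬ Ty g (e2 e) C1 R1 t)).card := by
      refine Finset.card_le_card_of_injOn (fun y => ((y.1.1, y.2.1), comb y.1.2 y.2.2))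
        (fun y hy => ?_) ?_
      · rw [mem_coe, mem_filter, mem_product] at hy
        rw [mem_coe, mem_product, mem_product, mem_filter]
        exact ⟨⟨mem_image_of_mem _ hy.1.1, mem_image_of_mem _ hy.1.2⟩, mem_univ _, hy.2⟩
      · intro y _ y' _ h
        obtain ⟨h1, h2⟩ := Prod.mk.inj h
        obtain ⟨h3, h4⟩ := Prod.mk.inj h1
        obtain ⟨h5, h6⟩ := comb_inj h2
        exact Prod.ext (Prod.ext h3 h5) (Prod.ext h4 h6)
    rw [card_product, card_product] at k2
    have k3 : (((T ×ˢ T).filter fun y => ¬ Ty g (e2 e) C1 R1 (comb y.1.2 y.2.2)).card : ℝ) ≤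
        T1.card * T1.card * ((univ.filter fun t : I → N ⊕ N → ZMod 2 =>
          ¬ Ty g (e2 e) C1 R1 t).card : ℝ) := by
      exact_mod_cast k2
    rw [k1]
    refine k3.trans ?_
    have hTX : 0 ≤ (T1.card : ℝ) * X := by positivity
    calc (T1.card : ℝ) * T1.card * ((univ.filter fun t : I → N ⊕ N → ZMod 2 =>
          ¬ Ty g (e2 e) C1 R1 t).card : ℝ)
        ≤ T1.card * T1.card * (d2 * (X * X)) := mul_le_mul_of_nonneg_left hB1 (by positivity)
      _ = d2 * ((T1.card * X) * (T1.card * X)) := by ring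
      _ ≤ d2 * ((D₀ * T.card) * (D₀ * T.card)) := by gcongr
      _ = _ := by ring
  calc ∑ τ ∈ T, ∑ τ' ∈ T, c τ τ' ≤
        ∑ τ ∈ T, ∑ τ' ∈ T, (3 * d1 + b1 τ.2 τ'.2 + b2 τ.2 + b2 τ'.2) :=
        sum_le_sum fun τ _ => sum_le_sum fun τ' _ => hpair τ τ'
    _ = 3 * d1 * (T.card : ℝ) ^ 2 + ∑ τ ∈ T, ∑ τ' ∈ T, b1 τ.2 τ'.2 +
        2 * T.card * ∑ τ ∈ T, b2 τ.2 := by
        simp only [sum_add_distrib, sum_const, nsmul_eq_mul, ← mul_sum]
        ring
    _ ≤ 3 * d1 * (T.card : ℝ) ^ 2 + d2 * D₀ ^ 2 * (T.card : ℝ) ^ 2 +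
        2 * T.card * (d2 * D₀ * T.card) := by gcongr
    _ = (3 * d1 + d2 * (D₀ ^ 2 + 2 * D₀)) * (T.card : ℝ) ^ 2 := by ring
    _ ≤ δ * (T.card : ℝ) ^ 2 := by
        refine mul_le_mul_of_nonneg_right ?_ (by positivity)
        have k1 : d2 * (D₀ ^ 2 + 2 * D₀) ≤ d2 * ((D₀ : ℝ) + 1) ^ 2 :=
          mul_le_mul_of_nonneg_left (by nlinarith) hd2p.le
        have k2 : d2 * ((D₀ : ℝ) + 1) ^ 2 = δ / 2 := by
          rw [hd2]
          field_simp
        rw [k2] at k1
        rw [hd1]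
        linarith

end Q98.LP
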