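import Pool.Agent.Q283.LP.Stm

/-!
Project LP (helper283): the structure of the admissible families.
-/

set_option autoImplicit false

open scoped Classical

namespace Q98.LP

open Finset Module Q283.LP

section bil
variable {K : Type}

theorem Qf_add (J : Finset K) (z w : WW K) : Qf J (z + w) = Qf J z + Qf J w + Bf J z w := by
  unfold Qf Bf
  rw [← sum_add_distrib, ← sum_add_distrib]
  refine sum_congr rfl fun k _ => ?_
  simp only [Prod.fst_add, Prod.snd_add, Pi.add_apply]
  ring

theorem Qf_zero (J : Finset K) : Qf J (0 : WW K) = 0 := by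
  unfold Qf
  simp

theorem Bf_add_left (J : Finset K) (z z' w : WW K) : Bf J (z + z') w = Bf J z w + Bf J z' w := by
  unfold Bf
  rw [← sum_add_distrib]
  refine sum_congr rfl fun k _ => ?_
  simp only [Prod.fst_add, Prod.snd_add, Pi.add_apply]
  ring

theorem Bf_smul_left (J : Finset K) (c : ZMod 2) (z w : WW K) : Bf J (c • z) w = c * Bf J z w := by
  unfold Bf
  rw [mul_sum]
  refine sum_congr rfl fun k _ => ?_
  simp only [Prod.smul_fst, Prod.smul_snd, Pi.smul_apply, smul_eq_mul]
  ring

theorem Bf_zero_left (J : Finset K) (w : WW K) : Bf J 0 w = 0 := by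
  unfold Bf
  simp

theorem Bf_symm (J : Finset K) (z w : WW K) : Bf J z w = Bf J w z := by
  unfold Bf
  refine sum_congr rfl fun k _ => ?_
  ring

theorem span_iso {J : Finset K} {S : Set (WW K)} (h : ∀ z ∈ S, ∀ w ∈ S, Bf J z w = 0) :
    ∀ z ∈ Submodule.span (ZMod 2) S, ∀ w ∈ Submodule.span (ZMod 2) S, Bf J z w = 0 := by
  have h1 : ∀ w ∈ S, ∀ z ∈ Submodule.span (ZMod 2) S, Bf J z w = 0 := by
    intro w hw z hz
    induction hz using Submodule.span_induction with
    | mem x hx => exact h x hx w hw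
    | zero => exact Bf_zero_left J w
    | add x y _ _ hx hy => rw [Bf_add_left, hx, hy, add_zero]
    | smul c x _ hx => rw [Bf_smul_left, hx, mul_zero]
  intro z hz w hw
  rw [Bf_symm]
  induction hw using Submodule.span_induction with
  | mem x hx => rw [Bf_symm]; exact h1 x hx z hz
  | zero => exact Bf_zero_left J z
  | add x y _ _ hx hy => rw [Bf_add_left, hx, hy, add_zero]
  | smul c x _ hx => rw [Bf_smul_left, hx, mul_zero]

theorem span_sup {J : Finset K} {S : Set (WW K)} (h : ∀ z ∈ S, Sup J z) :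
    ∀ z ∈ Submodule.span (ZMod 2) S, Sup J z := by
  intro z hz
  induction hz using Submodule.span_induction with
  | mem x hx => exact h x hx
  | zero => intro k _; exact ⟨rfl, rfl⟩
  | add x y _ _ hx hy =>
    intro k hk
    have a := hx k hk
    have b := hy k hk
    simp only [Prod.fst_add, Prod.snd_add, Pi.add_apply, a.1, a.2, b.1, b.2, add_zero, and_self]
  | smul c x _ hx =>
    intro k hk
    have a := hx k hk
    simp only [Prod.smul_fst, Prod.smul_snd, Pi.smul_apply, smul_eq_mul, a.1, a.2, mul_zero,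
      and_self]

theorem res_res (J J' : Finset K) (z : WW K) : res J (res J' z) = res (J ∩ J') z := by
  unfold res
  ext k
  · simp only [mem_inter]
    by_cases h : k ∈ J <;> by_cases h' : k ∈ J' <;> simp [h, h']
  · simp only [mem_inter]
    by_cases h : k ∈ J <;> by_cases h' : k ∈ J' <;> simp [h, h']

end bil

/-- two forms are separated -/
theorem sepa {N M : Type} [Fintype N] (e : M → N → ZMod 2) (he : Function.Injective e)
    (h0 : ∀ j, e j ≠ 0) {j j' : M} (h : j ≠ j') :
    ∃ t : N → ZMod 2, ∑ i, e j i * t i = 1 ∧ ∑ i, e j' i * t i = 0 := by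
  have e2 : ∀ a : ZMod 2, a = 0 ∨ a = 1 := by decide
  have hs : ∀ (j : M) (i : N), ∑ k, e j k * (Pi.single i (1 : ZMod 2) : N → ZMod 2) k = e j i := by
    intro j i
    rw [Finset.sum_eq_single i]
    · simp
    · intro b _ hb
      simp [hb]
    · simp
  obtain ⟨i, hi⟩ : ∃ i, e j i ≠ e j' i := by
    by_contra hcon
    push Not at hcon
    exact h (he (funext hcon))
  obtain ⟨i', hi'⟩ : ∃ i', e j i' ≠ 0 := by
    by_contra hcon
    push Not at hcon
    exact h0 j (funext hcon)
  have hi1 : e j i' = 1 := (e2 _).resolve_left hi'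
  rcases e2 (e j i) with a | a
  · have b : e j' i = 1 := by
      rcases e2 (e j' i) with b | b
      · exact absurd (a.trans b.symm) hi
      · exact b
    rcases e2 (e j' i') with c | c
    · exact ⟨Pi.single i' 1, by rw [hs, hi1], by rw [hs, c]⟩
    · refine ⟨Pi.single i 1 + Pi.single i' 1, ?_, ?_⟩
      · simp only [Pi.add_apply, mul_add, sum_add_distrib]
        rw [hs, hs, a, hi1, zero_add]
      · simp only [Pi.add_apply, mul_add, sum_add_distrib]
        rw [hs, hs, b, c]
        decide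
  · have b : e j' i = 0 := by
      rcases e2 (e j' i) with b | b
      · exact b
      · exact absurd (a.trans b.symm) hi
    exact ⟨Pi.single i 1, by rw [hs, a], by rw [hs, b]⟩

theorem one_form {N M : Type} [Fintype N] (e : M → N → ZMod 2) (h0 : ∀ j, e j ≠ 0) (j : M) :
    ∃ t : N → ZMod 2, ∑ i, e j i * t i = 1 := by
  have e2 : ∀ a : ZMod 2, a = 0 ∨ a = 1 := by decide
  obtain ⟨i', hi'⟩ : ∃ i', e j i' ≠ 0 := by
    by_contra hcon
    push Not at hcon
    exact h0 j (funext hcon)
  refine ⟨Pi.single i' 1, ?_⟩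
  rw [Finset.sum_eq_single i']
  · simp [(e2 _).resolve_left hi']
  · intro b _ hb
    simp [hb]
  · simp

theorem card_sup {K : Type} [Fintype K] (J : Finset K) :
    (univ.filter fun x : K → ZMod 2 => ∀ k, k ∉ J → x k = 0).card = 2 ^ J.card := by
  have h1 : (univ.filter fun x : K → ZMod 2 => ∀ k, k ∉ J → x k = 0) =
      Fintype.piFinset (fun k => if k ∈ J then (univ : Finset (ZMod 2)) else {0}) := by
    ext x
    simp only [mem_filter, mem_univ, true_and, Fintype.mem_piFinset]
    refine forall_congr' fun k => ?_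
    by_cases hk : k ∈ J
    · simp [hk]
    · simp [hk]
  rw [h1, Fintype.card_piFinset]
  have h2 : ∀ k : K, (if k ∈ J then (univ : Finset (ZMod 2)) else {0}).card =
      if k ∈ J then 2 else 1 := by
    intro k
    split_ifs
    · rfl
    · simp
  simp_rw [h2]
  rw [Finset.prod_ite]
  simp

section main
variable {N M K : Type} [Fintype N] [Fintype K] {e : M → N → ZMod 2} {κ : K → M}
  {Z : (N → ZMod 2) → Finset (WW K)}

theorem fa_Q (hF : Fa e κ Z) {t t' : N → ZMod 2} {z : WW K} (hz : z ∈ Z t) :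
    Qf (Jt e κ t ∩ Jt e κ t') z = 0 := by
  have := hF.pair t t' z hz 0 (hF.zero t')
  rwa [add_zero] at this

theorem fa_Q' (hF : Fa e κ Z) {t t' : N → ZMod 2} {z : WW K} (hz : z ∈ Z t') :
    Qf (Jt e κ t ∩ Jt e κ t') z = 0 := by
  have := hF.pair t t' 0 (hF.zero t) z hz
  rwa [zero_add] at this

theorem fa_B (hF : Fa e κ Z) {t t' : N → ZMod 2} {z w : WW K} (hz : z ∈ Z t) (hw : w ∈ Z t') :
    Bf (Jt e κ t ∩ Jt e κ t') z w = 0 := by
  have := hF.pair t t' z hz w hw
  rw [Qf_add, fa_Q hF hz, fa_Q' hF hw, zero_add, zero_add] at this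
  exact this

/-- the span -/
noncomputable def LL (Z : (N → ZMod 2) → Finset (WW K)) (t : N → ZMod 2) : Submodule (ZMod 2) (WW K) :=
  Submodule.span (ZMod 2) (Z t : Set (WW K))

theorem LL_sup (hF : Fa e κ Z) (t : N → ZMod 2) : ∀ z ∈ LL Z t, Sup (Jt e κ t) z :=
  span_sup (fun z hz => hF.sup t z (Finset.mem_coe.1 hz))

theorem LL_iso (hF : Fa e κ Z) (t : N → ZMod 2) :
    ∀ z ∈ LL Z t, ∀ w ∈ LL Z t, Bf (Jt e κ t) z w = 0 := by
  refine span_iso (fun z hz w hw => ?_)
  have := fa_B hF (Finset.mem_coe.1 hz) (Finset.mem_coe.1 hw)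
  rwa [inter_self] at this

omit [Fintype N] in
theorem card_LL (t : N → ZMod 2) : (LL Z t : Set (WW K)).ncard = 2 ^ finrank (ZMod 2) (LL Z t) := by
  have h := Module.natCard_eq_pow_finrank (K := ZMod 2) (V := LL Z t)
  rw [Nat.card_zmod] at h
  rw [← h]
  rfl

omit [Fintype N] in
theorem card_le_LL (t : N → ZMod 2) : (Z t).card ≤ (LL Z t : Set (WW K)).ncard := by
  rw [← Set.ncard_coe_finset]
  exact Set.ncard_le_ncard Submodule.subset_span (Set.toFinite _)

theorem card_le (h1 : S_ISO) (hF : Fa e κ Z) (t : N → ZMod 2) :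
    (Z t).card ≤ 2 ^ (Jt e κ t).card := by
  refine (card_le_LL t).trans ?_
  rw [card_LL]
  exact Nat.pow_le_pow_right (by norm_num) (h1 K (Jt e κ t) (LL Z t) (LL_sup hF t) (LL_iso hF t))

theorem mem_LL (h1 : S_ISO) (hF : Fa e κ Z) (hc : ∀ t, (Z t).card = 2 ^ (Jt e κ t).card)
    (t : N → ZMod 2) (z : WW K) : z ∈ LL Z t ↔ z ∈ Z t := by
  have h2 : (Z t : Set (WW K)) = (LL Z t : Set (WW K)) := by
    refine Set.eq_of_subset_of_ncard_le Submodule.subset_span ?_ (Set.toFinite _)
    rw [card_LL, Set.ncard_coe_finset, hc t]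
    exact Nat.pow_le_pow_right (by norm_num) (h1 K (Jt e κ t) (LL Z t) (LL_sup hF t) (LL_iso hF t))
  rw [← SetLike.mem_coe, ← h2, Finset.mem_coe]

theorem rank_LL (h1 : S_ISO) (hF : Fa e κ Z) (hc : ∀ t, (Z t).card = 2 ^ (Jt e κ t).card)
    (t : N → ZMod 2) : finrank (ZMod 2) (LL Z t) = (Jt e κ t).card := by
  refine le_antisymm (h1 K (Jt e κ t) (LL Z t) (LL_sup hF t) (LL_iso hF t)) ?_
  have h2 := card_le_LL (Z := Z) t
  rw [card_LL, hc t] at h2
  exact (Nat.pow_le_pow_iff_right (by norm_num)).1 h2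

theorem res_mem (h1 : S_ISO) (h2 : S_DEC) (hF : Fa e κ Z)
    (hc : ∀ t, (Z t).card = 2 ^ (Jt e κ t).card) (t t' : N → ZMod 2) {z : WW K} (hz : z ∈ Z t) :
    res (Jt e κ t ∩ Jt e κ t') z ∈ Z t ∧ res (Jt e κ t ∩ Jt e κ t') z ∈ Z t' := by
  have := h2 K (Jt e κ t) (Jt e κ t') (LL Z t) (LL Z t') (LL_sup hF t) (LL_sup hF t')
    (LL_iso hF t) (LL_iso hF t') (fun z hz w hw => fa_B hF ((mem_LL h1 hF hc t z).1 hz)
      ((mem_LL h1 hF hc t' w).1 hw)) (rank_LL h1 hF hc t) (rank_LL h1 hF hc t') z
    ((mem_LL h1 hF hc t z).2 hz)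
  rwa [mem_LL h1 hF hc, mem_LL h1 hF hc] at this

/-- the block -/
noncomputable def blk (κ : K → M) (j : M) : Finset K := univ.filter fun k => κ k = j

theorem mem_Jt {t : N → ZMod 2} {k : K} : k ∈ Jt e κ t ↔ ∑ i, e (κ k) i * t i = 1 := by
  unfold Jt
  simp

theorem blk_sub {t : N → ZMod 2} {j : M} (hj : ∑ i, e j i * t i = 1) : blk κ j ⊆ Jt e κ t := by
  intro k hk
  unfold blk at hk
  rw [mem_filter] at hk
  rw [mem_Jt, hk.2, hj]

theorem res_inter_mem (h1 : S_ISO) (h2 : S_DEC) (hF : Fa e κ Z)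
    (hc : ∀ t, (Z t).card = 2 ^ (Jt e κ t).card) (t : N → ZMod 2) {z : WW K} (hz : z ∈ Z t)
    (T : Finset (N → ZMod 2)) :
    res (univ.filter fun k => k ∈ Jt e κ t ∧ ∀ t' ∈ T, k ∈ Jt e κ t') z ∈ Z t := by
  induction T using Finset.induction_on with
  | empty =>
    have := (res_mem h1 h2 hF hc t t hz).1
    rw [inter_self] at this
    convert this using 2
    ext k
    simp
  | insert a T _ ih =>
    have := (res_mem h1 h2 hF hc t a ih).1
    rw [res_res] at this
    convert this using 2
    ext k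
    simp only [mem_filter, mem_univ, true_and, mem_inter, mem_insert, forall_eq_or_imp]
    tauto

theorem res_blk_mem (he : Function.Injective e) (h0 : ∀ j, e j ≠ 0) (h1 : S_ISO) (h2 : S_DEC)
    (hF : Fa e κ Z) (hc : ∀ t, (Z t).card = 2 ^ (Jt e κ t).card) {t : N → ZMod 2} {z : WW K}
    (hz : z ∈ Z t) {j : M} (hj : ∑ i, e j i * t i = 1) {t' : N → ZMod 2}
    (hj' : ∑ i, e j i * t' i = 1) : res (blk κ j) z ∈ Z t' := by
  have a : res (blk κ j) z ∈ Z t := by
    have := res_inter_mem h1 h2 hF hc t hz (univ.filter fun s => ∑ i, e j i * s i = 1)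
    convert this using 2
    ext k
    unfold blk
    simp only [mem_filter, mem_univ, true_and]
    constructor
    · rintro rfl
      exact ⟨mem_Jt.2 hj, fun s hs => mem_Jt.2 hs⟩
    · rintro ⟨_, hk⟩
      by_contra hne
      obtain ⟨s, hs1, hs2⟩ := sepa e he h0 (j := j) (j' := κ k) (fun h => hne h.symm)
      have := mem_Jt.1 (hk s hs1)
      rw [hs2] at this
      exact zero_ne_one this
  have b := (res_mem h1 h2 hF hc t t' a).2
  rw [res_res] at b
  convert b using 2
  symm
  rw [inter_eq_right]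
  exact fun k hk => mem_inter.2 ⟨blk_sub hj hk, blk_sub hj' hk⟩

end main

theorem t_STR (h1 : Q283.LP.S_ISO) (h2 : Q283.LP.S_DEC) : Q283.LP.S_STR := by
  intro N M K _ _ _ e κ Z he h0 hF
  refine ⟨card_le h1 hF, fun hc hind => ?_⟩
  have hsub : ∀ t, ∀ z ∈ Z t, ∀ w ∈ Z t, z - w ∈ Z t := by
    intro t z hz w hw
    rw [← mem_LL h1 hF hc] at hz hw ⊢
    exact (LL Z t).sub_mem hz hw
  -- the projection is injective
  have hker : ∀ t, ∀ z ∈ Z t, z.1 = 0 → z = 0 := by
    intro t z hz hz1
    have hz2 : ∀ k, z.2 k = 0 := by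
      intro k
      by_cases hk : k ∈ Jt e κ t
      · have hj : ∑ i, e (κ k) i * t i = 1 := mem_Jt.1 hk
        refine hind (κ k) z.2 (fun t' w hw => ?_) k rfl
        by_cases hj' : ∑ i, e (κ k) i * t' i = 1
        · have a := res_blk_mem he h0 h1 h2 hF hc hz hj hj'
          have b := fa_B hF a hw
          rw [inter_self] at b
          unfold Bf res at b
          simp only [hz1, Pi.zero_apply, ite_self, zero_mul, zero_add] at b
          rw [← b]
          have hs : (univ.filter fun l => κ l = κ k) ⊆ Jt e κ t' := blk_sub hj'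
          rw [← Finset.sum_subset hs]
          · refine sum_congr rfl fun l hl => ?_
            have : l ∈ blk κ (κ k) := hl
            rw [if_pos this, mul_comm]
          · intro l _ hl
            have : l ∉ blk κ (κ k) := hl
            rw [if_neg this, mul_zero]
        · refine sum_eq_zero fun l hl => ?_
          rw [mem_filter] at hl
          have hl2 : l ∉ Jt e κ t' := by
            rw [mem_Jt, hl.2]
            exact hj'
          rw [(hF.sup t' w hw l hl2).1, mul_zero]
      · exact (hF.sup t z hz k hk).2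
    exact Prod.ext hz1 (funext hz2)
  have hinj : ∀ t, ∀ z ∈ Z t, ∀ w ∈ Z t, z.1 = w.1 → z = w := by
    intro t z hz w hw h
    have := hker t (z - w) (hsub t z hz w hw) (by rw [Prod.fst_sub, h, sub_self])
    exact sub_eq_zero.1 this
  -- surjective
  have hsur : ∀ t, ∀ x : K → ZMod 2, (∀ k, k ∉ Jt e κ t → x k = 0) → ∃ z ∈ Z t, z.1 = x := by
    intro t x hx
    have h3 : (Z t).image Prod.fst = univ.filter fun x : K → ZMod 2 => ∀ k, k ∉ Jt e κ t → x k = 0 := by
      refine Finset.eq_of_subset_of_card_le ?_ ?_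
      · intro y hy
        rw [mem_image] at hy
        obtain ⟨z, hz, rfl⟩ := hy
        rw [mem_filter]
        exact ⟨mem_univ _, fun k hk => (hF.sup t z hz k hk).1⟩
      · rw [card_sup, Finset.card_image_of_injOn, hc t]
        intro z hz w hw h
        exact hinj t z (Finset.mem_coe.1 hz) w (Finset.mem_coe.1 hw) h
    have h4 : x ∈ (Z t).image Prod.fst := by
      rw [h3, mem_filter]
      exact ⟨mem_univ _, hx⟩
    rw [mem_image] at h4
    exact h4
  -- the unit vectors
  have hunit : ∀ l : K, ∃ z : WW K, z.1 = Pi.single l 1 ∧ (∀ k, κ k ≠ κ l → z.2 k = 0) ∧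
      ∀ t, ∑ i, e (κ l) i * t i = 1 → z ∈ Z t := by
    intro l
    obtain ⟨t, ht⟩ := one_form e h0 (κ l)
    obtain ⟨z, hz, hz1⟩ := hsur t (Pi.single l 1) (fun k hk => by
      refine Pi.single_eq_of_ne ?_ _
      rintro rfl
      exact hk (mem_Jt.2 ht))
    have hzr : res (blk κ (κ l)) z = z := by
      refine hinj t _ (res_blk_mem he h0 h1 h2 hF hc hz ht ht) z hz ?_
      unfold res
      simp only
      rw [hz1]
      funext k
      by_cases hk : k = l
      · subst hk
        rw [if_pos (by unfold blk; simp)]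
      · rw [Pi.single_eq_of_ne hk, ite_self]
    refine ⟨z, hz1, fun k hk => ?_, fun t' ht' => ?_⟩
    · rw [← hzr]
      unfold res
      simp only
      rw [if_neg]
      unfold blk
      simpa using hk
    · rw [← hzr]
      exact res_blk_mem he h0 h1 h2 hF hc hz ht ht'
  choose zz hz1 hz2 hz3 using hunit
  refine ⟨fun k l => (zz l).2 k, ⟨?_, ?_, ?_⟩, ?_, hsur⟩
  · -- symmetric
    intro k l
    by_cases hkl : κ k = κ l
    · obtain ⟨t, ht⟩ := one_form e h0 (κ l)
      have a := hz3 l t ht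
      have b := hz3 k t (by rw [hkl]; exact ht)
      have c := fa_B hF a b
      rw [inter_self] at c
      unfold Bf at c
      rw [hz1, hz1, sum_add_distrib, Finset.sum_eq_single l, Finset.sum_eq_single k] at c
      · simp only [Pi.single_eq_same, one_mul] at c
        have e2 : ∀ a b : ZMod 2, a + b = 0 → b = a := by decide
        exact e2 _ _ c
      · intro i _ hi
        rw [Pi.single_eq_of_ne hi, zero_mul]
      · intro hk
        exact absurd (mem_Jt.2 (by rw [hkl]; exact ht)) hk
      · intro i _ hi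
        rw [Pi.single_eq_of_ne hi, zero_mul]
      · intro hk
        exact absurd (mem_Jt.2 ht) hk
    · simp only
      rw [hz2 l k hkl, hz2 k l (fun h => hkl h.symm)]
  · intro k
    obtain ⟨t, ht⟩ := one_form e h0 (κ k)
    have c := fa_Q hF (t' := t) (hz3 k t ht)
    rw [inter_self] at c
    unfold Qf at c
    rw [hz1, Finset.sum_eq_single k] at c
    · simpa using c
    · intro i _ hi
      rw [Pi.single_eq_of_ne hi, zero_mul]
    · intro hk
      exact absurd (mem_Jt.2 ht) hk
  · intro k l hkl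
    exact hz2 l k hkl
  · intro t z hz k
    have hz' : (∑ l, z.1 l • zz l) ∈ Z t := by
      rw [← mem_LL h1 hF hc]
      refine Submodule.sum_mem _ fun l _ => ?_
      by_cases hl : l ∈ Jt e κ t
      · exact (LL Z t).smul_mem _ ((mem_LL h1 hF hc t _).2 (hz3 l t (mem_Jt.1 hl)))
      · rw [(hF.sup t z hz l hl).1, zero_smul]
        exact (LL Z t).zero_mem
    have heq : z = ∑ l, z.1 l • zz l := by
      refine hinj t z hz _ hz' ?_
      rw [Prod.fst_sum]
      funext i
      rw [Finset.sum_apply, Finset.sum_eq_single i]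
      · simp [hz1]
      · intro b _ hb
        rw [Prod.smul_fst, hz1, Pi.smul_apply, Pi.single_eq_of_ne (fun h => hb h.symm), smul_zero]
      · simp
    have h5 : z.2 k = (∑ l, z.1 l • zz l).2 k := by rw [← heq]
    rw [h5, Prod.snd_sum, Finset.sum_apply]
    refine sum_congr rfl fun l _ => ?_
    rw [Prod.smul_snd, Pi.smul_apply, smul_eq_mul, mul_comm]

end Q98.LP
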